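import Pool.Agent.Helper52.NF.St3

set_option autoImplicit false

/-! MODULE LIN of project NF (helper52, MP_dd34a0_co): exactness by a dimension count. -/

namespace Pool.Agent.Helper64.NF

open Pool.Agent.Helper52.NF Finset

theorem lin_ker {I J : Type} [Fintype I] [Fintype J] [DecidableEq I]
    (M : (I → ZMod 2) →ₗ[ZMod 2] (J → ZMod 2))
    (h : ∀ x, M x = 0 → x = 0 ∨ x = fun _ => 1) :
    Fintype.card I ≤ Module.finrank (ZMod 2) (LinearMap.range M) + 1 := by
  have h1 : LinearMap.ker M ≤ Submodule.span (ZMod 2) {(fun _ => 1 : I → ZMod 2)} := by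
    intro x hx
    rcases h x (LinearMap.mem_ker.1 hx) with rfl | rfl
    · exact Submodule.zero_mem _
    · exact Submodule.subset_span rfl
  have h2 : Module.finrank (ZMod 2) (LinearMap.ker M) ≤ 1 := by
    refine (Submodule.finrank_mono h1).trans ?_
    refine (finrank_span_le_card (R := ZMod 2) {(fun _ => 1 : I → ZMod 2)}).trans ?_
    simp
  have h3 := LinearMap.finrank_range_add_finrank_ker M
  rw [Module.finrank_fintype_fun_eq_card] at h3
  omega

theorem hLIN : StLIN := by
  intro I J K _ _ _ _ _ _ M N N' hadj hNM hM hN' hcard c hc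
  have r1 := lin_ker M hM
  have r2 := lin_ker N' hN'
  have hmat : LinearMap.toMatrix' N' = (LinearMap.toMatrix' N).transpose := by
    ext j k
    rw [Matrix.transpose_apply, LinearMap.toMatrix'_apply, LinearMap.toMatrix'_apply]
    have h := hadj (Pi.single k 1) (Pi.single j 1)
    simp only [Pi.single_apply, ite_mul, one_mul, zero_mul, mul_ite, mul_one, mul_zero,
      Finset.sum_ite_eq', Finset.mem_univ, if_true] at h
    exact h.symm
  have hrk : Module.finrank (ZMod 2) (LinearMap.range N') =
      Module.finrank (ZMod 2) (LinearMap.range N) := by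
    have h1 := Matrix.rank_transpose (LinearMap.toMatrix' N)
    rw [← hmat] at h1
    have a1 : (LinearMap.toMatrix' N').rank = Module.finrank (ZMod 2) (LinearMap.range N') := by
      rw [Matrix.rank, ← Matrix.toLin'_apply', Matrix.toLin'_toMatrix']
    have a2 : (LinearMap.toMatrix' N).rank = Module.finrank (ZMod 2) (LinearMap.range N) := by
      rw [Matrix.rank, ← Matrix.toLin'_apply', Matrix.toLin'_toMatrix']
    rw [← a1, ← a2]
    exact h1
  have h3 := LinearMap.finrank_range_add_finrank_ker N
  rw [Module.finrank_fintype_fun_eq_card] at h3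
  have hle : LinearMap.range M ≤ LinearMap.ker N := by
    rintro _ ⟨x, rfl⟩
    exact LinearMap.mem_ker.2 (hNM x)
  have heq := Submodule.eq_of_le_of_finrank_le hle (by omega)
  have hm : c ∈ LinearMap.ker N := LinearMap.mem_ker.2 hc
  rw [← heq] at hm
  exact hm

end Pool.Agent.Helper64.NF
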